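import Pool.Agent.H17.U2c

set_option autoImplicit false

namespace Pool.Agent.Results.MP_06821b_nt.Congruence

/-- `b m n`: the coefficient of `x ^ n` in `∏ (1 - x ^ (2 ^ i)) ^ (-m)`.
The factor `1 / (1 - x ^ (2 ^ i))` is the series with coefficient `1` at the multiples of `2 ^ i`;
the factors with `i > n` do not affect the coefficient. -/
noncomputable def b (m n : ℕ) : ℤ :=
  PowerSeries.coeff n ((∏ i ∈ Finset.range (n + 1),
    PowerSeries.mk (fun j : ℕ => if 2 ^ i ∣ j then (1 : ℤ) else 0)) ^ m)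

theorem result : ∀ m n k : ℕ, 1 ≤ m → m + 2 ≤ k →
    b (2 ^ m) (2 ^ (k + 1) * n) ≡ b (2 ^ m) (2 ^ (k - 1) * n) [ZMOD 2 ^ k] := by
  intro m n k hm hk
  obtain ⟨m, rfl⟩ : ∃ j, m = j + 1 := ⟨m - 1, by omega⟩
  obtain ⟨r, rfl⟩ : ∃ r, k = m + 3 + r := ⟨k - (m + 3), by omega⟩
  have h1 := Pool.Agent.H17.U2.b_step m r n
  have h2 := (pow_dvd_pow (2 : ℤ) (by omega : m + 3 + r ≤ m + 3 + (r + 1))).trans
    (Pool.Agent.H17.U2.b_step m (r + 1) n)
  have h3 := dvd_add h2 h1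
  rw [show m + 2 + (r + 1) = m + 2 + r + 1 by ring, sub_add_sub_cancel] at h3
  rw [show m + 3 + r + 1 = m + 2 + r + 1 + 1 by ring, show m + 3 + r - 1 = m + 2 + r by omega]
  exact (Int.modEq_iff_dvd.2 h3).symm

end Pool.Agent.Results.MP_06821b_nt.Congruence
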